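import Pool.Agent.Y641.BSD14.Coord
import Pool.Agent.Y809.BSD14.E0

/-!
# The Tamagawa number at `2` is twice an odd number
-/

set_option autoImplicit false

namespace Pool.Agent.Y641.BSD14

open scoped Classical
open Pool.Agent.Y700
open Pool.Agent.Y809.BSD14 (nadd nsub nmul npow nneg ladd lsub lmul lmul' norm_eq_of_lt root_int)
open WeierstrassCurve.Affine (Point)

section two

variable {k : ℤ}

theorem m2 : ‖(2 : ℚ_[2])‖ = 1 / 2 := by
  have := Padic.norm_p (p := 2)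
  simpa using this

theorem m2lt : ‖(2 : ℚ_[2])‖ < 1 := by rw [m2]; norm_num

theorem m2pow (n : ℕ) : ‖(2 : ℚ_[2]) ^ n‖ = (1 / 2) ^ n := by rw [norm_pow, m2]

theorem modd (z : ℤ) (h : ¬ (2 : ℤ) ∣ z) : ‖(z : ℚ_[2])‖ = 1 := by
  refine le_antisymm (Padic.norm_int_le_one z) (not_lt.1 fun h1 => h ?_)
  exact_mod_cast Padic.norm_intCast_lt_one_iff.1 h1

theorem mint (z : ℤ) : ‖(z : ℚ_[2])‖ ≤ 1 := Padic.norm_int_le_one z

theorem mM : ‖(4 * (k : ℚ_[2]) + 1)‖ = 1 := by exact_mod_cast modd (4 * k + 1) (by omega)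

theorem m4 : ‖(4 : ℚ_[2])‖ = 1 / 4 := by
  have := m2pow 2
  norm_num at this ⊢
  exact this

theorem m8 : ‖(8 : ℚ_[2])‖ = 1 / 8 := by
  have := m2pow 3
  norm_num at this ⊢
  exact this

theorem m16 : ‖(16 : ℚ_[2])‖ = 1 / 16 := by
  have := m2pow 4
  norm_num at this ⊢
  exact this

theorem m64 : ‖(64 : ℚ_[2])‖ = 1 / 64 := by
  have := m2pow 6
  norm_num at this ⊢
  exact this

theorem m128 : ‖(128 : ℚ_[2])‖ = 1 / 128 := by
  have := m2pow 7
  norm_num at this ⊢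
  exact this

theorem m13 : ‖(13 : ℚ_[2])‖ = 1 := by exact_mod_cast modd 13 (by norm_num)

/-- the singular points -/
theorem sing2 {x y : ℚ_[2]}
    (h : ((WM (4 * k + 1)).map (Int.castRingHom ℚ_[2])).toAffine.Nonsingular x y) :
    SingRed (WM (4 * k + 1)) 2 x y ↔ ‖4 * (x - (4 * k + 1))‖ ≤ 1 / 8 := by
  have he := eqn_xy h
  have hm := mM (k := k)
  have hcoef : SingRed (WM (4 * k + 1)) 2 x y ↔ ‖x‖ ≤ 1 ∧ ‖y‖ ≤ 1 ∧
      ‖y - (3 * x ^ 2 + 2 * k * x + (72 * k ^ 2 + 36 * k + 4))‖ < 1 ∧ ‖2 * y + x + 1‖ < 1 := by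
    unfold SingRed
    rw [WM_eq]
    simp only
    push_cast
    rw [one_mul, one_mul]
  have hX : ‖4 * (x - (4 * k + 1))‖ ≤ 1 / 8 ↔ ‖x - (4 * k + 1)‖ < 1 := by
    rw [norm_mul, m4]
    have h1 := Padic.norm_lt_pow_iff_norm_le_pow_sub_one (x - (4 * (k : ℚ_[2]) + 1)) 0
    norm_num at h1
    rw [h1]
    constructor <;> intro h2 <;> linarith
  have hk : ‖(k : ℚ_[2])‖ ≤ 1 := mint k
  rw [hcoef, hX]
  have hm1 : ‖4 * (k : ℚ_[2]) + 1 + 1‖ < 1 := by
    have : 4 * (k : ℚ_[2]) + 1 + 1 = 2 * ((2 * k + 1 : ℤ) : ℚ_[2]) := by push_cast; ring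
    rw [this]
    exact lmul' m2lt (mint _)
  constructor
  · rintro ⟨hx, hy, h1, h2⟩
    have : x - (4 * k + 1) = (2 * y + x + 1) - 2 * y - (4 * k + 1 + 1) := by ring
    rw [this]
    exact lsub (lsub h2 (lmul' m2lt hy)) hm1
  · intro hd
    have hx1 : ‖x + 1‖ < 1 := by
      have : x + 1 = (x - (4 * k + 1)) + (4 * k + 1 + 1) := by ring
      rw [this]
      exact ladd hd hm1
    have hx : ‖x‖ ≤ 1 := by
      have : x = (x + 1) - 1 := by ring
      rw [this]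
      exact nsub hx1.le (by simp)
    have he1 : ‖x - 1‖ < 1 := by
      have : x - 1 = (x + 1) - 2 := by ring
      rw [this]
      exact lsub hx1 m2lt
    set R : ℚ_[2] := x ^ 3 + k * x ^ 2 + (72 * k ^ 2 + 36 * k + 4) * x -
      (368 * k ^ 3 + 276 * k ^ 2 + 69 * k + 6) with hR
    have hR1 : ‖R - 1‖ < 1 := by
      have : R - 1 = (x - 1) * (x ^ 2 + x + 1 + k * (x + 1)) +
          2 * (((36 * k ^ 2 + 18 * k + 2 : ℤ) : ℚ_[2]) * x -
            ((184 * k ^ 3 + 138 * k ^ 2 + 34 * k + 3 + k - k : ℤ) : ℚ_[2])) - (k - k) +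
            0 := by
        rw [hR]; push_cast; ring
      rw [this]
      rw [sub_self, sub_zero, add_zero]
      refine ladd (lmul' he1 ?_) (lmul' m2lt ?_)
      · exact nadd (nadd (nadd (npow hx 2) hx) (by simp)) (nmul hk hx1.le)
      · exact nsub (nmul (mint _) hx) (mint _)
    have hRi : ‖R‖ ≤ 1 := by
      have : R = (R - 1) + 1 := by ring
      rw [this]
      exact nadd hR1.le (by simp)
    have hy : ‖y‖ ≤ 1 := by
      refine root_int (x := y) (s := -(x + 1)) (q := -R) ?_ (nneg hx1.le) (nneg hRi)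
      rw [hR]
      linear_combination he
    have hy1 : ‖y - 1‖ < 1 := by
      have h3 : ‖(y - 1) ^ 2‖ < 1 := by
        have : (y - 1) ^ 2 = (R - 1) - (x + 1) * y - 2 * (y - 1) := by
          rw [hR]; linear_combination he
        rw [this]
        exact lsub (lsub hR1 (lmul' hx1 hy)) (lmul' m2lt (nsub hy (by simp)))
      rw [norm_pow] at h3
      by_contra hc
      rw [not_lt] at hc
      have := one_le_pow₀ (n := 2) hc
      linarith
    refine ⟨hx, hy, ?_, ?_⟩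
    · have : y - (3 * x ^ 2 + 2 * k * x + (72 * k ^ 2 + 36 * k + 4)) =
          (y - 1) - (x - 1) * (3 * (x + 1)) - 2 * (k * x +
            ((36 * k ^ 2 + 18 * k + 3 : ℤ) : ℚ_[2])) := by push_cast; ring
      rw [this]
      have n3 : ‖(3 : ℚ_[2])‖ ≤ 1 := by exact_mod_cast mint 3
      exact lsub (lsub hy1 (lmul' he1 (nmul n3 hx1.le))) (lmul' m2lt (nadd (nmul hk hx) (mint _)))
    · have : 2 * y + x + 1 = 2 * y + (x + 1) := by ring
      rw [this]
      exact ladd (lmul' m2lt hy) hx1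

/-- membership in terms of the coordinates -/
theorem mem2 (hE : S_E0) {P : PtP (WM (4 * k + 1)) 2} {X Y : ℚ_[2]} (hP : At k P X Y) :
    P ∉ E0 (WM (4 * k + 1)) 2 ↔ ‖X‖ ≤ 1 / 8 := by
  obtain ⟨x, y, hn, e, rfl, rfl⟩ := hP
  rw [At.sing hE e, not_not, sing2 hn]

/-- norm of the second factor when the valuation is at most six -/
theorem nsecond {X : ℚ_[2]} (h1 : ‖X‖ ≤ 1 / 8) (h2 : 1 / 128 < ‖X‖) :
    ‖X ^ 2 + 13 * (4 * k + 1) * X + 128 * (4 * k + 1) ^ 2‖ = ‖X‖ := by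
  have hm := mM (k := k)
  have e1 : ‖13 * (4 * (k : ℚ_[2]) + 1) * X‖ = ‖X‖ := by
    rw [norm_mul, norm_mul, m13, hm]; ring
  have e2 : ‖128 * (4 * (k : ℚ_[2]) + 1) ^ 2‖ = 1 / 128 := by
    rw [norm_mul, norm_pow, m128, hm]; ring
  have e3 : ‖X ^ 2‖ < ‖X‖ := by
    rw [norm_pow, pow_two]
    nlinarith
  have e4 : X ^ 2 + 13 * (4 * (k : ℚ_[2]) + 1) * X + 128 * (4 * k + 1) ^ 2 =
      13 * (4 * k + 1) * X + (X ^ 2 + 128 * (4 * k + 1) ^ 2) := by ring
  rw [e4, norm_eq_of_lt, e1]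
  rw [e1]
  refine lt_of_le_of_lt (IsUltrametricDist.norm_add_le_max _ _) (max_lt e3 ?_)
  rw [e2]; exact h2

/-- points outside `E⁰ ∪ (E⁰ + T)` -/
def Good (k : ℤ) (P : PtP (WM (4 * k + 1)) 2) (q : ℚ_[2]) : Prop :=
  ∃ u w : ℚ_[2], At k P (q * u) (q * w) ∧ ‖u‖ = 1 ∧ ‖w‖ = 1

theorem trich (hE : S_E0) {T : PtP (WM (4 * k + 1)) 2} (hT : At k T 0 0)
    (P : PtP (WM (4 * k + 1)) 2) : P ∈ E0 (WM (4 * k + 1)) 2 ∨ P + T ∈ E0 (WM (4 * k + 1)) 2 ∨
      (Good k P 8 ∨ Good k P 16) := by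
  by_contra hcon
  push Not at hcon
  obtain ⟨h1, h2, h3, h4⟩ := hcon
  have hP0 : P ≠ 0 := fun h0 => h1 (by rw [h0]; exact zero_mem _)
  obtain ⟨X, Y, hP⟩ := exists_at hP0
  have hX8 := (mem2 hE hP).1 h1
  have hm := mM (k := k)
  have heq := hP.eqn
  by_cases hX0 : X = 0
  · subst hX0
    have hY0 : Y = 0 := by
      have : Y ^ 2 = 0 := by rw [heq]; ring
      exact pow_eq_zero_iff (by norm_num) |>.1 this
    subst hY0
    apply h2
    rw [hP.ext hT, T_add_T hT]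
    exact zero_mem _
  obtain ⟨Y3, hPT⟩ := hP.addT hT hX0
  have hPT8 := (mem2 hE hPT).1 h2
  have e2 : ‖128 * (4 * (k : ℚ_[2]) + 1) ^ 2‖ = 1 / 128 := by
    rw [norm_mul, norm_pow, m128, hm]; ring
  rw [norm_div, e2] at hPT8
  have hXp : 0 < ‖X‖ := norm_pos_iff.2 hX0
  have hX16 : 1 / 16 ≤ ‖X‖ := by
    rw [div_le_iff₀ hXp] at hPT8
    linarith
  have hv := Padic.norm_eq_zpow_neg_valuation hX0
  set v := X.valuation with hvdef
  -- the valuation is three or four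
  have hv2 : v = 3 ∨ v = 4 := by
    have g1 : (2 : ℝ) ^ (-v) ≤ 2 ^ (-3 : ℤ) := by
      have : (2 : ℝ) ^ (-3 : ℤ) = 1 / 8 := by norm_num
      rw [this]
      rw [hv] at hX8
      exact_mod_cast hX8
    have g2 : (2 : ℝ) ^ (-4 : ℤ) ≤ 2 ^ (-v) := by
      have : (2 : ℝ) ^ (-4 : ℤ) = 1 / 16 := by norm_num
      rw [this]
      rw [hv] at hX16
      exact_mod_cast hX16
    have g3 := (zpow_le_zpow_iff_right₀ (by norm_num : (1 : ℝ) < 2)).1 g1
    have g4 := (zpow_le_zpow_iff_right₀ (by norm_num : (1 : ℝ) < 2)).1 g2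
    omega
  have hY2 : ‖Y‖ ^ 2 = ‖X‖ ^ 2 := by
    rw [← norm_pow, heq, norm_mul, nsecond hX8 (by linarith), pow_two]
  have hYX : ‖Y‖ = ‖X‖ := by
    have := norm_nonneg Y
    nlinarith
  rcases hv2 with h | h
  · have hXn : ‖X‖ = 1 / 8 := by rw [hv, h]; norm_num
    have h80 : (8 : ℚ_[2]) ≠ 0 := by norm_num
    apply h3
    refine ⟨X / 8, Y / 8, ?_, ?_, ?_⟩
    · rw [mul_div_cancel₀ _ h80, mul_div_cancel₀ _ h80]; exact hP
    · rw [norm_div, hXn, m8]; norm_num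
    · rw [norm_div, hYX, hXn, m8]; norm_num
  · have hXn : ‖X‖ = 1 / 16 := by rw [hv, h]; norm_num
    have h80 : (16 : ℚ_[2]) ≠ 0 := by norm_num
    apply h4
    refine ⟨X / 16, Y / 16, ?_, ?_, ?_⟩
    · rw [mul_div_cancel₀ _ h80, mul_div_cancel₀ _ h80]; exact hP
    · rw [norm_div, hXn, m16]; norm_num
    · rw [norm_div, hYX, hXn, m16]; norm_num

/-- doubling of the good points -/
theorem good_dbl (hE : S_E0) {T P : PtP (WM (4 * k + 1)) 2} (hT : At k T 0 0)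
    (h : Good k P 8 ∨ Good k P 16) :
    P + P ∉ E0 (WM (4 * k + 1)) 2 ∧ P + P + T ∉ E0 (WM (4 * k + 1)) 2 := by
  have hm := mM (k := k)
  have e2 : ‖128 * (4 * (k : ℚ_[2]) + 1) ^ 2‖ = 1 / 128 := by
    rw [norm_mul, norm_pow, m128, hm]; ring
  have key : ∃ X Y, At k P X Y ∧ Y ≠ 0 ∧
      ‖(X ^ 2 - 128 * (4 * k + 1) ^ 2) ^ 2 / (4 * Y ^ 2)‖ = 1 / 16 := by
    rcases h with ⟨u, w, hP, hu, hw⟩ | ⟨u, w, hP, hu, hw⟩
    · refine ⟨_, _, hP, ?_, ?_⟩
      · intro h0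
        have := congrArg norm h0
        rw [norm_mul, m8, hw, norm_zero] at this
        norm_num at this
      · have h1 : ‖(8 * u) ^ 2‖ = 1 / 64 := by rw [norm_pow, norm_mul, m8, hu]; norm_num
        have h2 : ‖(8 * u) ^ 2 - 128 * (4 * (k : ℚ_[2]) + 1) ^ 2‖ = 1 / 64 := by
          rw [sub_eq_add_neg, norm_eq_of_lt (by rw [norm_neg, e2, h1]; norm_num), h1]
        rw [norm_div, norm_pow, h2, norm_mul, m4, norm_pow, norm_mul, m8, hw]
        norm_num
    · refine ⟨_, _, hP, ?_, ?_⟩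
      · intro h0
        have := congrArg norm h0
        rw [norm_mul, m16, hw, norm_zero] at this
        norm_num at this
      · have h1 : ‖(16 * u) ^ 2‖ = 1 / 256 := by rw [norm_pow, norm_mul, m16, hu]; norm_num
        have h2 : ‖(16 * u) ^ 2 - 128 * (4 * (k : ℚ_[2]) + 1) ^ 2‖ = 1 / 128 := by
          have : (16 * u) ^ 2 - 128 * (4 * (k : ℚ_[2]) + 1) ^ 2 =
            -(128 * (4 * k + 1) ^ 2) + (16 * u) ^ 2 := by ring
          rw [this, norm_eq_of_lt (by rw [norm_neg, e2, h1]; norm_num), norm_neg, e2]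
        rw [norm_div, norm_pow, h2, norm_mul, m4, norm_pow, norm_mul, m16, hw]
        norm_num
  obtain ⟨X, Y, hP, hY, hn⟩ := key
  obtain ⟨Y3, h3⟩ := hP.dbl' hY
  set X3 := (X ^ 2 - 128 * (4 * (k : ℚ_[2]) + 1) ^ 2) ^ 2 / (4 * Y ^ 2) with hX3
  refine ⟨(mem2 hE h3).2 (by rw [hn]; norm_num), ?_⟩
  have hX30 : X3 ≠ 0 := by
    intro h0
    rw [h0, norm_zero] at hn
    norm_num at hn
  obtain ⟨Y4, h4⟩ := h3.addT hT hX30
  refine (mem2 hE h4).2 ?_
  rw [norm_div, e2, hn]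
  norm_num

/-- points with the same residues -/
theorem same2 (hE : S_E0) {P P' : PtP (WM (4 * k + 1)) 2} {q u w u' w' : ℚ_[2]} (hq0 : q ≠ 0)
    (hq : ‖q‖ ≤ 1) (h : At k P (q * u) (q * w))
    (h' : At k P' (q * u') (q * w')) (hu : ‖u‖ = 1) (hw : ‖w‖ = 1)
    (hu' : ‖u'‖ = 1) (huu : ‖u - u'‖ ≤ 1 / 4) (hww : ‖w - w'‖ ≤ 1 / 4) :
    P - P' ∈ E0 (WM (4 * k + 1)) 2 := by
  have hm := mM (k := k)
  have hs : ‖w + w'‖ = 1 / 2 := by
    have : w + w' = 2 * w + -(w - w') := by ring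
    have h2w : ‖2 * w‖ = 1 / 2 := by rw [norm_mul, m2, hw, mul_one]
    rw [this, norm_eq_of_lt (by rw [norm_neg, h2w]; linarith), h2w]
  rw [sub_eq_add_neg]
  have hneg := h'.neg
  by_cases heq : u = u'
  · subst heq
    have e1 := h.eqn
    have e2 := h'.eqn
    have e3 : (w - w') * (w + w') = 0 := by
      have : q ^ 2 * ((w - w') * (w + w')) = 0 := by linear_combination e1 - e2
      rcases mul_eq_zero.1 this with h | h
      · exact absurd h (pow_ne_zero 2 hq0)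
      · exact h
    rcases mul_eq_zero.1 e3 with h3 | h3
    · have h4 : w = w' := sub_eq_zero.1 h3
      subst h4
      rw [h.ext h', add_neg_cancel]
      exact zero_mem _
    · rw [h3, norm_zero] at hs
      norm_num at hs
  · have hXne : q * u ≠ q * u' := fun h3 => heq (mul_left_cancel₀ hq0 h3)
    obtain ⟨Y3, h3⟩ := h.add hneg hXne
    by_contra hcon
    have h4 := (mem2 hE h3).1 hcon
    have hzz0 : u - u' ≠ 0 := sub_ne_zero.2 heq
    have e1 : (q * w - -(q * w')) / (q * u - q * u') = (w + w') / (u - u') := by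
      have h5 : q * w - -(q * w') = q * (w + w') := by ring
      have h6 : q * u - q * u' = q * (u - u') := by ring
      rw [h5, h6, mul_div_mul_left _ _ hq0]
    rw [e1] at h4
    have hLn : 2 ≤ ‖(w + w') / (u - u')‖ := by
      rw [norm_div, hs, le_div_iff₀ (norm_pos_iff.2 hzz0)]
      linarith
    have hL2 : 1 < ‖((w + w') / (u - u')) ^ 2‖ := by
      rw [norm_pow]
      exact one_lt_pow₀ (by linarith) (by norm_num)
    have hrest : ‖-(13 * (4 * (k : ℚ_[2]) + 1)) - q * u - q * u'‖ ≤ 1 := by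
      refine nsub (nsub (nneg (nmul m13.le hm.le)) (nmul hq hu.le)) (nmul hq hu'.le)
    have e2 : ((w + w') / (u - u')) ^ 2 - 13 * (4 * (k : ℚ_[2]) + 1) - q * u - q * u' =
        ((w + w') / (u - u')) ^ 2 + (-(13 * (4 * (k : ℚ_[2]) + 1)) - q * u - q * u') := by ring
    rw [e2, norm_eq_of_lt (lt_of_le_of_lt hrest hL2)] at h4
    linarith

theorem res2 {a b : ℤ_[2]} (h : PadicInt.toZModPow 2 a = PadicInt.toZModPow 2 b) :
    ‖(a : ℚ_[2]) - b‖ ≤ 1 / 4 := by
  have h1 : PadicInt.toZModPow 2 (a - b) = 0 := by rw [map_sub, h, sub_self]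
  have h2 : a - b ∈ RingHom.ker (PadicInt.toZModPow 2 : ℤ_[2] →+* ZMod (2 ^ 2)) := h1
  rw [PadicInt.ker_toZModPow] at h2
  have h3 := (PadicInt.norm_le_pow_iff_mem_span_pow (a - b) 2).2 (by exact_mod_cast h2)
  have h4 : ((a - b : ℤ_[2]) : ℚ_[2]) = a - b := PadicInt.coe_sub a b
  rw [← h4, PadicInt.padic_norm_e_of_padicInt]
  refine h3.trans (le_of_eq ?_)
  norm_num

theorem finite2 (hE : S_E0) {T : PtP (WM (4 * k + 1)) 2} (hT : At k T 0 0) :
    Finite (PtP (WM (4 * k + 1)) 2 ⧸ E0 (WM (4 * k + 1)) 2) := by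
  set H := E0 (WM (4 * k + 1)) 2 with hH
  refine finite_of_cover H (ι := (Bool × ZMod (2 ^ 2) × ZMod (2 ^ 2)) ⊕ Bool)
    (fun i P => match i with
      | Sum.inr false => P ∈ H
      | Sum.inr true => P + T ∈ H
      | Sum.inl ab => ∃ u w : ℤ_[2], At k P ((if ab.1 then 8 else 16) * u)
          ((if ab.1 then 8 else 16) * w) ∧
          ‖(u : ℚ_[2])‖ = 1 ∧ ‖(w : ℚ_[2])‖ = 1 ∧ PadicInt.toZModPow 2 u = ab.2.1 ∧
          PadicInt.toZModPow 2 w = ab.2.2) ?_ ?_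
  · intro P
    rcases trich hE hT P with h | h | ⟨u, w, hP, hu, hw⟩ | ⟨u, w, hP, hu, hw⟩
    · exact ⟨Sum.inr false, h⟩
    · exact ⟨Sum.inr true, h⟩
    · exact ⟨Sum.inl (true, PadicInt.toZModPow 2 (⟨u, hu.le⟩ : ℤ_[2]),
        PadicInt.toZModPow 2 (⟨w, hw.le⟩ : ℤ_[2])), ⟨u, hu.le⟩, ⟨w, hw.le⟩, by simpa using hP,
        hu, hw, rfl, rfl⟩
    · exact ⟨Sum.inl (false, PadicInt.toZModPow 2 (⟨u, hu.le⟩ : ℤ_[2]),
        PadicInt.toZModPow 2 (⟨w, hw.le⟩ : ℤ_[2])), ⟨u, hu.le⟩, ⟨w, hw.le⟩, by simpa using hP,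
        hu, hw, rfl, rfl⟩
  · rintro (⟨a, b, c⟩ | (_ | _)) P P' h h'
    · obtain ⟨z, w, h1, h2, h3, h4, h5⟩ := h
      obtain ⟨z', w', h1', h2', h3', h4', h5'⟩ := h'
      refine same2 hE ?_ ?_ h1 h1' h2 h3 h2' (res2 (h4.trans h4'.symm)) (res2 (h5.trans h5'.symm))
      · cases a <;> simp
      · cases a
        · simp only [Bool.false_eq_true, if_false, m16]; norm_num
        · simp only [if_true, m8]; norm_num
    · exact H.sub_mem h h'
    · have : P - P' = (P + T) - (P' + T) := by abel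
      rw [this]
      exact H.sub_mem h h'

/-- a finite abelian group with exactly one element of order two, which is not a double -/
theorem card_two {G : Type} [AddCommGroup G] [Finite G] (t : G) (ht : t ≠ 0) (ht2 : t + t = 0)
    (h1 : ∀ q : G, q + q = 0 → q = 0 ∨ q = t) (h2 : ∀ q : G, q + q ≠ t) :
    padicValNat 2 (Nat.card G) = 1 := by
  set f : G →+ G :=
    { toFun := fun q => q + q
      map_zero' := by simp
      map_add' := fun a b => by abel } with hf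
  have hfa : ∀ q, f q = q + q := fun _ => rfl
  have hker : Nat.card f.ker = 2 := by
    have : (f.ker : Set G) = {0, t} := by
      ext q
      simp only [SetLike.mem_coe, AddMonoidHom.mem_ker, hfa, Set.mem_insert_iff,
        Set.mem_singleton_iff]
      constructor
      · exact h1 q
      · rintro (rfl | rfl)
        · simp
        · exact ht2
    have h3 : Nat.card f.ker = (f.ker : Set G).ncard := rfl
    rw [h3, this, Set.ncard_pair (Ne.symm ht)]
  have hcard : Nat.card G = 2 * Nat.card f.range := by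
    rw [← AddSubgroup.card_mul_index f.ker, hker, AddSubgroup.index_ker]
  have hodd : ¬ 2 ∣ Nat.card f.range := by
    intro h3
    have : Fact (Nat.Prime 2) := ⟨Nat.prime_two⟩
    obtain ⟨⟨r, q, hq⟩, hr⟩ := exists_prime_addOrderOf_dvd_card' 2 h3
    have h4 := addOrderOf_nsmul_eq_zero (⟨r, q, hq⟩ : f.range)
    rw [hr, two_nsmul] at h4
    have h5 : r + r = 0 := congrArg Subtype.val h4
    rcases h1 r h5 with h6 | h6
    · have h7 : (⟨r, q, hq⟩ : f.range) = 0 := Subtype.ext h6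
      rw [h7, addOrderOf_zero] at hr
      norm_num at hr
    · exact h2 q (hq.trans h6)
  have hne : Nat.card f.range ≠ 0 := fun h0 => hodd (by rw [h0]; exact dvd_zero _)
  rw [hcard, padicValNat.mul (by norm_num) hne, padicValNat.self (by norm_num),
    padicValNat.eq_zero_of_not_dvd hodd]

theorem val2 (hE : S_E0) (k : ℤ) : padicValNat 2 (tam (WM (4 * k + 1)) 2) = 1 := by
  obtain ⟨T, hT⟩ := exists_T 2 k
  have hfin := finite2 hE hT
  set H := E0 (WM (4 * k + 1)) 2 with hH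
  have hTH : T ∉ H := (mem2 hE hT).2 (by simp)
  have hTT := T_add_T hT
  have hq0 : ∀ P : PtP (WM (4 * k + 1)) 2,
      (QuotientAddGroup.mk P : PtP (WM (4 * k + 1)) 2 ⧸ H) = 0 ↔ P ∈ H := fun P =>
    QuotientAddGroup.eq_zero_iff P
  refine card_two (G := PtP (WM (4 * k + 1)) 2 ⧸ H) (QuotientAddGroup.mk T) ?_ ?_ ?_ ?_
  · exact fun h => hTH ((hq0 T).1 h)
  · rw [← QuotientAddGroup.mk_add, hTT]; rfl
  · intro q hq
    obtain ⟨P, rfl⟩ := QuotientAddGroup.mk_surjective q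
    rw [← QuotientAddGroup.mk_add, hq0] at hq
    rcases trich hE hT P with h | h | h
    · exact Or.inl ((hq0 P).2 h)
    · right
      rw [← sub_eq_zero, ← QuotientAddGroup.mk_sub, hq0]
      have : P - T = P + T - (T + T) := by abel
      rw [this, hTT, sub_zero]
      exact h
    · exact absurd hq (good_dbl hE hT h).1
  · intro q hq
    obtain ⟨P, rfl⟩ := QuotientAddGroup.mk_surjective q
    rw [← QuotientAddGroup.mk_add, ← sub_eq_zero, ← QuotientAddGroup.mk_sub, hq0] at hq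
    have hq' : P + P + T ∈ H := by
      have : P + P + T = P + P - T + (T + T) := by abel
      rw [this, hTT, add_zero]
      exact hq
    rcases trich hE hT P with h | h | h
    · apply hTH
      have : T = (P + P + T) - (P + P) := by abel
      rw [this]
      exact H.sub_mem hq' (H.add_mem h h)
    · apply hTH
      have : T = (P + P + T) - ((P + T) + (P + T)) + (T + T) := by abel
      rw [this, hTT, add_zero]
      exact H.sub_mem hq' (H.add_mem h h)
    · exact (good_dbl hE hT h).2 hq'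

end two

theorem t2 : S_T2 := by
  intro hE M hM4
  obtain ⟨k, rfl⟩ : ∃ k : ℤ, M = 4 * k + 1 := ⟨M / 4, by omega⟩
  exact val2 hE k

end Pool.Agent.Y641.BSD14
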