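import Pool.Agent.Y641.BSD14.Coord
import Pool.Agent.Y809.BSD14.E0

/-!
# The Tamagawa number at `7` is odd
-/

set_option autoImplicit false

namespace Pool.Agent.Y641.BSD14

open scoped Classical
open Pool.Agent.Y700
open Pool.Agent.Y809.BSD14 (nadd nsub nmul npow nneg ladd lsub lmul lmul' norm_eq_of_lt)
open WeierstrassCurve.Affine (Point)

section seven

variable [Fact (Nat.Prime 7)] {k : ℤ}

theorem n7 : ‖(7 : ℚ_[7])‖ = 1 / 7 := by
  have := Padic.norm_p (p := 7)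
  simpa using this

theorem n7lt : ‖(7 : ℚ_[7])‖ < 1 := by rw [n7]; norm_num

theorem nint (z : ℤ) (h : ¬ (7 : ℤ) ∣ z) : ‖(z : ℚ_[7])‖ = 1 := by
  refine le_antisymm (Padic.norm_int_le_one z) (not_lt.1 fun h1 => h ?_)
  exact_mod_cast Padic.norm_intCast_lt_one_iff.1 h1

theorem n2' : ‖(2 : ℚ_[7])‖ = 1 := by exact_mod_cast nint 2 (by norm_num)

theorem n4' : ‖(4 : ℚ_[7])‖ = 1 := by exact_mod_cast nint 4 (by norm_num)

theorem n13 : ‖(13 : ℚ_[7])‖ = 1 := by exact_mod_cast nint 13 (by norm_num)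

theorem n3' : ‖(3 : ℚ_[7])‖ ≤ 1 := by exact_mod_cast Padic.norm_int_le_one (p := 7) 3

theorem lt_le {x : ℚ_[7]} (h : ‖x‖ < 1) : ‖x / 7‖ ≤ 1 := by
  have h1 : ‖x‖ ≤ 1 / 7 := by
    have := (Padic.norm_lt_pow_iff_norm_le_pow_sub_one x 0).1 (by simpa using h)
    simpa using this
  rw [norm_div, n7, div_le_iff₀ (by norm_num)]
  linarith

variable (hM : ¬ (7 : ℤ) ∣ 4 * k + 1)

include hM in
theorem nM : ‖(4 * (k : ℚ_[7]) + 1)‖ = 1 := by exact_mod_cast nint (4 * k + 1) hM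

include hM in
theorem nD : ‖-(13 * (4 * (k : ℚ_[7]) + 1) / 2)‖ = 1 := by
  rw [norm_neg, norm_div, norm_mul, n13, nM hM, n2']; norm_num

include hM in
theorem nB : ‖(4 * (k : ℚ_[7]) + 1) ^ 2 / 4‖ = 1 := by
  rw [norm_div, norm_pow, nM hM, n4']; norm_num

/-- the singular points -/
theorem sing7 (hM : ¬ (7 : ℤ) ∣ 4 * k + 1) {x y : ℚ_[7]}
    (h : ((WM (4 * k + 1)).map (Int.castRingHom ℚ_[7])).toAffine.Nonsingular x y) :
    SingRed (WM (4 * k + 1)) 7 x y ↔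
      ‖4 * (x - (4 * k + 1)) + 13 * (4 * k + 1) / 2‖ < 1 := by
  have he := eqn_xy h
  have hm := nM hM
  have hD := nD hM
  have hB := nB hM
  set m : ℚ_[7] := 4 * (k : ℚ_[7]) + 1 with hmdef
  set D : ℚ_[7] := -(13 * m / 2) with hDdef
  set B : ℚ_[7] := m ^ 2 / 4 with hBdef
  set Z : ℚ_[7] := 4 * (x - m) + 13 * m / 2 with hZ
  set Y : ℚ_[7] := 4 * (2 * y + x + 1) with hY
  have hc : ‖343 * B‖ < 1 := by
    have : (343 : ℚ_[7]) * B = (49 * B) * 7 := by ring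
    rw [this]
    exact lmul (nmul (by exact_mod_cast Padic.norm_int_le_one (p := 7) 49) hB.le) n7lt
  have hYZ : Y ^ 2 = (Z + D) * (Z ^ 2 + 343 * B) := by
    rw [hY, hZ, hDdef, hBdef, hmdef]
    linear_combination 64 * he
  have hFx : 16 * (y - (3 * x ^ 2 + 2 * k * x + (72 * k ^ 2 + 36 * k + 4))) =
      2 * Y - (3 * Z ^ 2 + 2 * D * Z + 343 * B) := by
    rw [hY, hZ, hDdef, hBdef, hmdef]
    ring
  have hcoef : SingRed (WM (4 * k + 1)) 7 x y ↔ ‖x‖ ≤ 1 ∧ ‖y‖ ≤ 1 ∧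
      ‖y - (3 * x ^ 2 + 2 * k * x + (72 * k ^ 2 + 36 * k + 4))‖ < 1 ∧ ‖2 * y + x + 1‖ < 1 := by
    unfold SingRed
    rw [WM_eq]
    simp only
    push_cast
    rw [one_mul, one_mul]
  have n16 : ‖(16 : ℚ_[7])‖ = 1 := by exact_mod_cast nint 16 (by norm_num)
  rw [hcoef]
  constructor
  · rintro ⟨hx, hy, h1, h2⟩
    have hYl : ‖Y‖ < 1 := lmul n4'.le h2
    have hZ1 : ‖Z‖ ≤ 1 := by
      have : Z = 4 * (x - m) - D := by rw [hZ, hDdef]; ring
      rw [this]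
      exact nsub (nmul n4'.le (nsub hx hm.le)) hD.le
    by_contra hcon
    rw [not_lt] at hcon
    have hZe : ‖Z‖ = 1 := le_antisymm hZ1 hcon
    have h3 : ‖Z ^ 2 + 343 * B‖ = 1 := by
      rw [norm_eq_of_lt (by rw [norm_pow, hZe, one_pow]; exact hc), norm_pow, hZe, one_pow]
    have h4 : ‖Z + D‖ < 1 := by
      have h5 := congrArg norm hYZ
      rw [norm_pow, norm_mul (Z + D), h3, mul_one] at h5
      rw [← h5]
      exact pow_lt_one₀ (norm_nonneg _) hYl (by norm_num)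
    have h6 : ‖3 * Z ^ 2 + 2 * D * Z + 343 * B‖ < 1 := by
      have : 3 * Z ^ 2 + 2 * D * Z + 343 * B = 2 * Y -
          16 * (y - (3 * x ^ 2 + 2 * k * x + (72 * k ^ 2 + 36 * k + 4))) := by rw [hFx]; ring
      rw [this]
      exact lsub (lmul n2'.le hYl) (lmul n16.le h1)
    have h7 : ‖Z * (-D + 3 * (Z + D))‖ < 1 := by
      have : Z * (-D + 3 * (Z + D)) = (3 * Z ^ 2 + 2 * D * Z + 343 * B) - 343 * B := by ring
      rw [this]
      exact lsub h6 hc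
    rw [norm_mul, hZe, one_mul, norm_eq_of_lt (by
      rw [norm_neg, hD]
      exact lmul n3' h4), norm_neg, hD] at h7
    exact lt_irrefl _ h7
  · intro hZl
    have hX : ‖Z + D‖ = 1 := by
      rw [add_comm, norm_eq_of_lt (by rw [hD]; exact hZl), hD]
    have hx : ‖x‖ ≤ 1 := by
      have : x = (Z + D) / 4 + m := by rw [hZ, hDdef]; ring
      rw [this]
      exact nadd (by rw [norm_div, hX, n4']; norm_num) hm.le
    have hYl : ‖Y‖ < 1 := by
      have h3 : ‖Z ^ 2 + 343 * B‖ < 1 := ladd (by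
        rw [norm_pow]; exact pow_lt_one₀ (norm_nonneg _) hZl (by norm_num)) hc
      have h5 := congrArg norm hYZ
      rw [norm_pow, norm_mul (Z + D), hX, one_mul] at h5
      by_contra hcon
      rw [not_lt] at hcon
      have : 1 ≤ ‖Y‖ ^ 2 := one_le_pow₀ hcon
      linarith
    have h2 : ‖2 * y + x + 1‖ < 1 := by
      have h5 : ‖Y‖ = ‖2 * y + x + 1‖ := by rw [hY, norm_mul, n4', one_mul]
      rw [← h5]; exact hYl
    have hy : ‖y‖ ≤ 1 := by
      have : y = ((2 * y + x + 1) - x - 1) / 2 := by ring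
      rw [this, norm_div, n2', div_one]
      exact nsub (nsub h2.le hx) (by simp)
    refine ⟨hx, hy, ?_, h2⟩
    have h5 := congrArg norm hFx
    rw [norm_mul, n16, one_mul] at h5
    rw [h5]
    refine lsub (lmul n2'.le hYl) (ladd (ladd ?_ ?_) hc)
    · rw [pow_two]
      exact lmul n3' (lmul hZl.le hZl)
    · exact lmul (nmul n2'.le hD.le) hZl

/-- membership in terms of the coordinates -/
theorem mem7 (hE : S_E0) (hM : ¬ (7 : ℤ) ∣ 4 * k + 1) {P : PtP (WM (4 * k + 1)) 7}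
    {X Y : ℚ_[7]} (hP : At k P X Y) :
    P ∉ E0 (WM (4 * k + 1)) 7 ↔ ‖X + 13 * (4 * k + 1) / 2‖ < 1 := by
  obtain ⟨x, y, hn, e, rfl, rfl⟩ := hP
  rw [At.sing hE e, not_not, sing7 hM hn]

/-- shape of the points outside `E⁰` -/
theorem shape7 (hM : ¬ (7 : ℤ) ∣ 4 * k + 1) {P : PtP (WM (4 * k + 1)) 7}
    {X Y : ℚ_[7]} (hP : At k P X Y) (h : ‖X + 13 * (4 * k + 1) / 2‖ < 1) :
    ∃ z w : ℚ_[7], X = 7 * z - 13 * (4 * k + 1) / 2 ∧ Y = 7 * w ∧ ‖z‖ = 1 ∧ ‖w‖ = 1 ∧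
      w ^ 2 = (7 * z + -(13 * (4 * k + 1) / 2)) * (z ^ 2 + 7 * ((4 * k + 1) ^ 2 / 4)) := by
  have he := hP.eqn
  have hD := nD hM
  have hB := nB hM
  have h70 : (7 : ℚ_[7]) ≠ 0 := by norm_num
  set m : ℚ_[7] := 4 * (k : ℚ_[7]) + 1 with hmdef
  set D : ℚ_[7] := -(13 * m / 2) with hDdef
  set B : ℚ_[7] := m ^ 2 / 4 with hBdef
  set Z : ℚ_[7] := X + 13 * m / 2 with hZ
  set z : ℚ_[7] := Z / 7 with hz
  set w : ℚ_[7] := Y / 7 with hw
  have hZz : Z = 7 * z := by rw [hz]; field_simp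
  have hYw : Y = 7 * w := by rw [hw]; field_simp
  have hX : X = 7 * z + D := by rw [← hZz, hZ, hDdef]; ring
  have hww : w ^ 2 = (7 * z + D) * (z ^ 2 + 7 * B) := by
    have h1 : 49 * w ^ 2 = 49 * ((7 * z + D) * (z ^ 2 + 7 * B)) := by
      have : 49 * w ^ 2 = Y ^ 2 := by rw [hYw]; ring
      rw [this, he, hX, hDdef, hBdef]
      ring
    exact mul_left_cancel₀ (by norm_num) h1
  have hz1 : ‖z‖ ≤ 1 := lt_le h
  have hZD : ‖7 * z + D‖ = 1 := by
    rw [add_comm, norm_eq_of_lt (by rw [hD, ← hZz]; exact h), hD]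
  have hze : ‖z‖ = 1 := by
    by_contra hne
    have hzl : ‖z‖ < 1 := lt_of_le_of_ne hz1 hne
    have hz2 := lt_le hzl
    set u := z / 7 with hu
    have hzu : z = 7 * u := by rw [hu]; field_simp
    have h3 : ‖z ^ 2 + 7 * B‖ = 1 / 7 := by
      have : z ^ 2 + 7 * B = 7 * (B + 7 * u ^ 2) := by rw [hzu]; ring
      rw [this, norm_mul, norm_eq_of_lt (by
        rw [hB]
        exact lmul' n7lt (npow hz2 2)), hB, n7, mul_one]
    have h4 : ‖w‖ ^ 2 = 1 / 7 := by rw [← norm_pow, hww, norm_mul, hZD, h3, one_mul]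
    have h5 : ‖w‖ < 1 := by
      by_contra hc
      rw [not_lt] at hc
      have := one_le_pow₀ (n := 2) hc
      linarith
    have h6 := lt_le h5
    rw [norm_div, n7, div_le_iff₀ (by norm_num)] at h6
    have h7 := norm_nonneg w
    nlinarith
  have hwe : ‖w‖ = 1 := by
    have h3 : ‖z ^ 2 + 7 * B‖ = 1 := by
      rw [norm_eq_of_lt (by
        rw [norm_pow, hze, one_pow]
        exact lmul' n7lt hB.le), norm_pow, hze, one_pow]
    have h4 : ‖w‖ ^ 2 = 1 := by rw [← norm_pow, hww, norm_mul, hZD, h3, one_mul]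
    have := norm_nonneg w
    nlinarith
  refine ⟨z, w, ?_, hYw, hze, hwe, hww⟩
  rw [hX, hDdef]; ring

/-- doubling -/
theorem dbl7 (hE : S_E0) (hM : ¬ (7 : ℤ) ∣ 4 * k + 1) {P : PtP (WM (4 * k + 1)) 7}
    (h : P ∉ E0 (WM (4 * k + 1)) 7) : P + P ∉ E0 (WM (4 * k + 1)) 7 := by
  have hP0 : P ≠ 0 := fun h0 => h (by rw [h0]; exact zero_mem _)
  obtain ⟨X, Y, hP⟩ := exists_at hP0
  obtain ⟨z, w, hX, hY, hz, hw, hww⟩ := shape7 hM hP ((mem7 hE hM hP).1 h)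
  have h70 : (7 : ℚ_[7]) ≠ 0 := by norm_num
  have hw0 : w ≠ 0 := by intro h0; rw [h0, norm_zero] at hw; exact zero_ne_one hw
  have hY0 : Y ≠ 0 := by rw [hY]; exact mul_ne_zero h70 hw0
  obtain ⟨Y3, h3⟩ := hP.dbl hY0
  rw [mem7 hE hM h3]
  have hD := nD hM
  have hB := nB hM
  set m : ℚ_[7] := 4 * (k : ℚ_[7]) + 1 with hmdef
  set D : ℚ_[7] := -(13 * m / 2) with hDdef
  set B : ℚ_[7] := m ^ 2 / 4 with hBdef
  have hX' : X = 7 * z + D := by rw [hX, hDdef]; ring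
  set A : ℚ_[7] := 3 * z ^ 2 + 7 * B with hA
  have hL : (3 * X ^ 2 + 26 * m * X + 128 * m ^ 2) / (2 * Y) = (2 * D * z + 7 * A) / (2 * w) := by
    rw [hX', hY, hA, hBdef, hDdef]
    field_simp
    ring
  rw [hL]
  have hT : ((2 * D * z + 7 * A) / (2 * w)) ^ 2 - 13 * m - X - X + 13 * m / 2 =
      7 * (4 * D * z * A + 7 * A ^ 2 - 4 * D * z ^ 3 - 28 * D * z * B - 4 * D ^ 2 * B) /
        (4 * w ^ 2) - 2 * (7 * z) := by
    have e1 : (13 : ℚ_[7]) * m = -2 * D := by rw [hDdef]; ring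
    have e2 : (13 : ℚ_[7]) * m / 2 = -D := by rw [hDdef]; ring
    rw [e2, e1, hX']
    have e3 : ((2 * D * z + 7 * A) / (2 * w)) ^ 2 = (2 * D * z + 7 * A) ^ 2 / (4 * w ^ 2) := by
      field_simp
      ring
    rw [e3]
    have e4 : D = D * (4 * w ^ 2) / (4 * w ^ 2) := by field_simp
    have e5 : (2 * D * z + 7 * A) ^ 2 / (4 * w ^ 2) - -2 * D - (7 * z + D) - (7 * z + D) + -D =
        ((2 * D * z + 7 * A) ^ 2 - D * (4 * w ^ 2)) / (4 * w ^ 2) - 2 * (7 * z) := by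
      rw [sub_div, ← e4]; ring
    rw [e5, hww]
    congr 2
    ring
  rw [hT]
  have n49 : ‖(28 : ℚ_[7])‖ ≤ 1 := by exact_mod_cast Padic.norm_int_le_one (p := 7) 28
  have nA : ‖A‖ ≤ 1 := nadd (nmul n3' (npow hz.le 2)) (nmul n7lt.le hB.le)
  have nI : ‖4 * D * z * A + 7 * A ^ 2 - 4 * D * z ^ 3 - 28 * D * z * B - 4 * D ^ 2 * B‖ ≤ 1 := by
    refine nsub (nsub (nsub (nadd ?_ ?_) ?_) ?_) ?_
    · exact nmul (nmul (nmul n4'.le hD.le) hz.le) nA
    · exact nmul n7lt.le (npow nA 2)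
    · exact nmul (nmul n4'.le hD.le) (npow hz.le 3)
    · exact nmul (nmul (nmul n49 hD.le) hz.le) hB.le
    · exact nmul (nmul n4'.le (npow hD.le 2)) hB.le
  refine lsub ?_ (lmul n2'.le (lmul' n7lt hz.le))
  rw [norm_div, norm_mul (4 : ℚ_[7]), norm_pow w, hw, n4']
  simp only [one_pow, mul_one, div_one]
  exact lmul' n7lt nI

/-- points with the same residues -/
theorem same7 (hE : S_E0) (hM : ¬ (7 : ℤ) ∣ 4 * k + 1) {P P' : PtP (WM (4 * k + 1)) 7}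
    {z w z' w' : ℚ_[7]} (h : At k P (7 * z - 13 * (4 * k + 1) / 2) (7 * w))
    (h' : At k P' (7 * z' - 13 * (4 * k + 1) / 2) (7 * w')) (hz : ‖z‖ = 1) (hw : ‖w‖ = 1)
    (hz' : ‖z'‖ = 1) (hzz : ‖z - z'‖ < 1) (hww : ‖w - w'‖ < 1) :
    P - P' ∈ E0 (WM (4 * k + 1)) 7 := by
  have h70 : (7 : ℚ_[7]) ≠ 0 := by norm_num
  have hD := nD hM
  have hm := nM hM
  have hs : ‖w + w'‖ = 1 := by
    have : w + w' = 2 * w + -(w - w') := by ring
    rw [this, norm_eq_of_lt (by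
      rw [norm_neg, norm_mul, n2', hw, one_mul]; exact hww), norm_mul, n2', hw, one_mul]
  rw [sub_eq_add_neg]
  have hneg := h'.neg
  by_cases heq : z = z'
  · subst heq
    have e1 := h.eqn
    have e2 := h'.eqn
    have e3 : (w - w') * (w + w') = 0 := by
      have : (49 : ℚ_[7]) * ((w - w') * (w + w')) = 0 := by linear_combination e1 - e2
      rcases mul_eq_zero.1 this with h | h
      · norm_num at h
      · exact h
    rcases mul_eq_zero.1 e3 with h3 | h3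
    · have h4 : w = w' := sub_eq_zero.1 h3
      subst h4
      rw [h.ext h', add_neg_cancel]
      exact zero_mem _
    · rw [h3, norm_zero] at hs
      exact absurd hs zero_ne_one
  · have hXne : 7 * z - 13 * (4 * (k : ℚ_[7]) + 1) / 2 ≠ 7 * z' - 13 * (4 * k + 1) / 2 := by
      intro h3
      apply heq
      have : (7 : ℚ_[7]) * z = 7 * z' := by linear_combination h3
      exact mul_left_cancel₀ h70 this
    obtain ⟨Y3, h3⟩ := h.add hneg hXne
    by_contra hcon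
    have h4 := (mem7 hE hM h3).1 hcon
    have hzz0 : z - z' ≠ 0 := sub_ne_zero.2 heq
    have e1 : (7 * w - -(7 * w')) / (7 * z - 13 * (4 * (k : ℚ_[7]) + 1) / 2 -
        (7 * z' - 13 * (4 * k + 1) / 2)) = (w + w') / (z - z') := by
      have : 7 * z - 13 * (4 * (k : ℚ_[7]) + 1) / 2 - (7 * z' - 13 * (4 * k + 1) / 2) =
        7 * (z - z') := by ring
      rw [this]
      field_simp
      ring
    rw [e1] at h4
    have hLn : 1 < ‖(w + w') / (z - z')‖ := by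
      rw [norm_div, hs]
      exact one_lt_one_div (norm_pos_iff.2 hzz0) hzz
    have hL2 : 1 < ‖((w + w') / (z - z')) ^ 2‖ := by
      rw [norm_pow]
      exact one_lt_pow₀ hLn (by norm_num)
    have hrest : ‖13 * (4 * (k : ℚ_[7]) + 1) / 2 - 7 * z - 7 * z'‖ ≤ 1 := by
      have n1 : ‖13 * (4 * (k : ℚ_[7]) + 1) / 2‖ ≤ 1 := by
        rw [← norm_neg]; exact hD.le
      exact nsub (nsub n1 (nmul n7lt.le hz.le)) (nmul n7lt.le hz'.le)
    have e2 : ((w + w') / (z - z')) ^ 2 - 13 * (4 * (k : ℚ_[7]) + 1) -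
        (7 * z - 13 * (4 * k + 1) / 2) - (7 * z' - 13 * (4 * k + 1) / 2) +
        13 * (4 * k + 1) / 2 = ((w + w') / (z - z')) ^ 2 +
        (13 * (4 * (k : ℚ_[7]) + 1) / 2 - 7 * z - 7 * z') := by ring
    rw [e2, norm_eq_of_lt (lt_of_le_of_lt hrest hL2)] at h4
    linarith

theorem res_lt {a b : ℤ_[7]} (h : PadicInt.toZMod a = PadicInt.toZMod b) :
    ‖(a : ℚ_[7]) - b‖ < 1 := by
  have h1 : PadicInt.toZMod (a - b) = 0 := by rw [map_sub, h, sub_self]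
  have h2 : a - b ∈ RingHom.ker (PadicInt.toZMod : ℤ_[7] →+* ZMod 7) := h1
  rw [PadicInt.ker_toZMod, IsLocalRing.mem_maximalIdeal, PadicInt.mem_nonunits] at h2
  have h3 : ((a - b : ℤ_[7]) : ℚ_[7]) = a - b := PadicInt.coe_sub a b
  rw [← h3]
  exact h2

/-- the Tamagawa number at `7` is odd -/
theorem odd7 (hE : S_E0) (hM : ¬ (7 : ℤ) ∣ 4 * k + 1) : Odd (tam (WM (4 * k + 1)) 7) := by
  set H := E0 (WM (4 * k + 1)) 7 with hH
  have hfin : Finite (PtP (WM (4 * k + 1)) 7 ⧸ H) := by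
    refine finite_of_cover H (ι := Option (ZMod 7 × ZMod 7)) (fun i P => match i with
      | none => P ∈ H
      | some ab => ∃ z w : ℤ_[7], At k P (7 * z - 13 * (4 * k + 1) / 2) (7 * w) ∧
          ‖(z : ℚ_[7])‖ = 1 ∧ ‖(w : ℚ_[7])‖ = 1 ∧ PadicInt.toZMod z = ab.1 ∧
          PadicInt.toZMod w = ab.2) ?_ ?_
    · intro P
      by_cases hP : P ∈ H
      · exact ⟨none, hP⟩
      · have hP0 : P ≠ 0 := fun h0 => hP (by rw [h0]; exact zero_mem _)
        obtain ⟨X, Y, hA⟩ := exists_at hP0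
        obtain ⟨z, w, hX, hY, hz, hw, -⟩ := shape7 hM hA ((mem7 hE hM hA).1 hP)
        refine ⟨some (PadicInt.toZMod (⟨z, hz.le⟩ : ℤ_[7]), PadicInt.toZMod (⟨w, hw.le⟩ : ℤ_[7])),
          ⟨z, hz.le⟩, ⟨w, hw.le⟩, ?_, hz, hw, rfl, rfl⟩
        rw [hX, hY] at hA
        exact hA
    · rintro (_ | ⟨a, b⟩) P P' h h'
      · exact H.sub_mem h h'
      · obtain ⟨z, w, h1, h2, h3, h4, h5⟩ := h
        obtain ⟨z', w', h1', h2', h3', h4', h5'⟩ := h'
        exact same7 hE hM h1 h1' h2 h3 h2' (res_lt (h4.trans h4'.symm)) (res_lt (h5.trans h5'.symm))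
  rw [← Nat.not_even_iff_odd, even_iff_two_dvd]
  intro h2
  have h3 : 2 ∣ Nat.card (PtP (WM (4 * k + 1)) 7 ⧸ H) := h2
  have : Fact (Nat.Prime 2) := ⟨Nat.prime_two⟩
  obtain ⟨q, hq⟩ := exists_prime_addOrderOf_dvd_card' 2 h3
  obtain ⟨P, rfl⟩ := QuotientAddGroup.mk_surjective q
  have h4 : P ∉ H := by
    intro h
    have : (QuotientAddGroup.mk P : PtP (WM (4 * k + 1)) 7 ⧸ H) = 0 :=
      (QuotientAddGroup.eq_zero_iff P).2 h
    rw [this, addOrderOf_zero] at hq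
    norm_num at hq
  have h5 : P + P ∈ H := by
    rw [← QuotientAddGroup.eq_zero_iff]
    have := addOrderOf_nsmul_eq_zero (QuotientAddGroup.mk P : PtP (WM (4 * k + 1)) 7 ⧸ H)
    rw [hq, two_nsmul] at this
    exact this
  exact dbl7 hE hM h4 h5

end seven

theorem t7 : S_T7 := by
  intro hE hp M hM4 hM7
  obtain ⟨k, rfl⟩ : ∃ k : ℤ, M = 4 * k + 1 := ⟨M / 4, by omega⟩
  exact odd7 hE hM7

end Pool.Agent.Y641.BSD14
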