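import Pool.Agent.Y700.Defs

/-!
# Coordinates on the twists of `X_0(14)`
-/

set_option autoImplicit false

namespace Pool.Agent.Y641.BSD14

open scoped Classical
open Pool.Agent.Y700
open WeierstrassCurve.Affine (Point)

theorem WM_eq (k : ℤ) : WM (4 * k + 1) =
    ⟨1, k, 1, 72 * k ^ 2 + 36 * k + 4, -(368 * k ^ 3 + 276 * k ^ 2 + 69 * k + 6)⟩ := by
  unfold WM
  have e1 : (4 * k + 1 - 1) / 4 = k := by
    rw [show 4 * k + 1 - 1 = 4 * k by ring]
    exact Int.mul_ediv_cancel_left _ (by norm_num)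
  have e2 : (9 * (4 * k + 1) ^ 2 - 1) / 2 = 72 * k ^ 2 + 36 * k + 4 := by
    rw [show 9 * (4 * k + 1) ^ 2 - 1 = 2 * (72 * k ^ 2 + 36 * k + 4) by ring]
    exact Int.mul_ediv_cancel_left _ (by norm_num)
  have e3 : (23 * (4 * k + 1) ^ 3 + 1) / 4 = 368 * k ^ 3 + 276 * k ^ 2 + 69 * k + 6 := by
    rw [show 23 * (4 * k + 1) ^ 3 + 1 = 4 * (368 * k ^ 3 + 276 * k ^ 2 + 69 * k + 6) by ring]
    exact Int.mul_ediv_cancel_left _ (by norm_num)
  rw [e1, e2, e3]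

section coeffs

variable {K : Type} [Field K] (k : ℤ)

theorem c1 : ((WM (4 * k + 1)).map (Int.castRingHom K)).a₁ = 1 := by
  rw [WeierstrassCurve.map_a₁, WM_eq]; simp

theorem c2 : ((WM (4 * k + 1)).map (Int.castRingHom K)).a₂ = k := by
  rw [WeierstrassCurve.map_a₂, WM_eq]; simp

theorem c3 : ((WM (4 * k + 1)).map (Int.castRingHom K)).a₃ = 1 := by
  rw [WeierstrassCurve.map_a₃, WM_eq]; simp

theorem c4 : ((WM (4 * k + 1)).map (Int.castRingHom K)).a₄ = 72 * k ^ 2 + 36 * k + 4 := by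
  rw [WeierstrassCurve.map_a₄, WM_eq]; simp

theorem c6 : ((WM (4 * k + 1)).map (Int.castRingHom K)).a₆ =
    -(368 * k ^ 3 + 276 * k ^ 2 + 69 * k + 6) := by
  rw [WeierstrassCurve.map_a₆, WM_eq]; simp

end coeffs

variable {p : ℕ} [Fact p.Prime] {k : ℤ}

/-- `P` is the affine point with the coordinates `X`, `Y` on `Y² = X (X² + 13 M X + 128 M²)`,
`M = 4 k + 1` -/
def At (k : ℤ) (P : PtP (WM (4 * k + 1)) p) (X Y : ℚ_[p]) : Prop :=
  ∃ (x y : ℚ_[p]) (h : _), P = Point.some x y h ∧ X = 4 * (x - (4 * k + 1)) ∧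
    Y = 4 * (2 * y + x + 1)

theorem eqn_xy {x y : ℚ_[p]}
    (h : ((WM (4 * k + 1)).map (Int.castRingHom ℚ_[p])).toAffine.Nonsingular x y) :
    y ^ 2 + x * y + y = x ^ 3 + k * x ^ 2 + (72 * k ^ 2 + 36 * k + 4) * x -
      (368 * k ^ 3 + 276 * k ^ 2 + 69 * k + 6) := by
  have h1 := (WeierstrassCurve.Affine.equation_iff _ _).1 h.1
  rw [c1, c2, c3, c4, c6] at h1
  linear_combination h1

theorem At.eqn {P : PtP (WM (4 * k + 1)) p} {X Y : ℚ_[p]} (h : At k P X Y) :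
    Y ^ 2 = X * (X ^ 2 + 13 * (4 * k + 1) * X + 128 * (4 * k + 1) ^ 2) := by
  obtain ⟨x, y, hn, rfl, rfl, rfl⟩ := h
  have h1 := eqn_xy hn
  linear_combination 64 * h1

theorem At.ne_zero {P : PtP (WM (4 * k + 1)) p} {X Y : ℚ_[p]} (h : At k P X Y) : P ≠ 0 := by
  obtain ⟨x, y, hn, rfl, _⟩ := h
  exact Point.some_ne_zero _

theorem exists_at {P : PtP (WM (4 * k + 1)) p} (h : P ≠ 0) : ∃ X Y, At k P X Y := by
  rcases P with _ | ⟨x, y, hn⟩
  · exact absurd rfl h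
  · exact ⟨_, _, x, y, hn, rfl, rfl, rfl⟩

theorem At.unique {P : PtP (WM (4 * k + 1)) p} {X Y X' Y' : ℚ_[p]} (h : At k P X Y)
    (h' : At k P X' Y') : X = X' ∧ Y = Y' := by
  obtain ⟨x, y, hn, rfl, rfl, rfl⟩ := h
  obtain ⟨x', y', hn', e, rfl, rfl⟩ := h'
  injection e with e1 e2
  rw [e1, e2]
  exact ⟨rfl, rfl⟩

theorem At.ext {P P' : PtP (WM (4 * k + 1)) p} {X Y : ℚ_[p]} (h : At k P X Y)
    (h' : At k P' X Y) : P = P' := by
  obtain ⟨x, y, hn, rfl, e1, e2⟩ := h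
  obtain ⟨x', y', hn', rfl, e1', e2'⟩ := h'
  have hx : x = x' := by
    have : (4 : ℚ_[p]) * (x - x') = 0 := by linear_combination e1' - e1
    rcases mul_eq_zero.1 this with h | h
    · norm_num at h
    · exact sub_eq_zero.1 h
  have hy : y = y' := by
    have : (8 : ℚ_[p]) * (y - y') = 0 := by rw [hx] at e2; linear_combination e2' - e2
    rcases mul_eq_zero.1 this with h | h
    · norm_num at h
    · exact sub_eq_zero.1 h
  subst hx hy
  rfl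

theorem At.neg {P : PtP (WM (4 * k + 1)) p} {X Y : ℚ_[p]} (h : At k P X Y) :
    At k (-P) X (-Y) := by
  obtain ⟨x, y, hn, rfl, rfl, rfl⟩ := h
  rw [Point.neg_some]
  refine ⟨_, _, _, rfl, rfl, ?_⟩
  rw [WeierstrassCurve.Affine.negY, c1, c3]
  ring

theorem At.add {P P' : PtP (WM (4 * k + 1)) p} {X Y X' Y' : ℚ_[p]} (h : At k P X Y)
    (h' : At k P' X' Y') (hne : X ≠ X') :
    ∃ Y3, At k (P + P') (((Y - Y') / (X - X')) ^ 2 - 13 * (4 * k + 1) - X - X') Y3 := by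
  obtain ⟨x, y, hn, rfl, rfl, rfl⟩ := h
  obtain ⟨x', y', hn', rfl, rfl, rfl⟩ := h'
  have hx : x ≠ x' := fun h => hne (by rw [h])
  rw [Point.add_of_X_ne hx]
  refine ⟨_, _, _, _, rfl, ?_, rfl⟩
  rw [WeierstrassCurve.Affine.addX, WeierstrassCurve.Affine.slope_of_X_ne hx, c1, c2]
  have h1 : x - x' ≠ 0 := sub_ne_zero.2 hx
  have h2 : 4 * (x - (4 * k + 1)) - 4 * (x' - (4 * k + 1)) = 4 * (x - x') := by ring
  rw [h2]
  field_simp
  ring

theorem At.dbl {P : PtP (WM (4 * k + 1)) p} {X Y : ℚ_[p]} (h : At k P X Y) (hY : Y ≠ 0) :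
    ∃ Y3, At k (P + P) (((3 * X ^ 2 + 26 * (4 * k + 1) * X + 128 * (4 * k + 1) ^ 2) / (2 * Y)) ^ 2 -
      13 * (4 * k + 1) - X - X) Y3 := by
  obtain ⟨x, y, hn, rfl, rfl, rfl⟩ := h
  have h1 : 2 * y + x + 1 ≠ 0 := fun h => hY (by rw [h, mul_zero])
  have hy : y ≠ ((WM (4 * k + 1)).map (Int.castRingHom ℚ_[p])).toAffine.negY x y := by
    rw [WeierstrassCurve.Affine.negY, c1, c3]
    intro h
    apply h1
    linear_combination h
  rw [Point.add_self_of_Y_ne hy]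
  refine ⟨_, _, _, _, rfl, ?_, rfl⟩
  rw [WeierstrassCurve.Affine.addX, WeierstrassCurve.Affine.slope_of_Y_ne rfl hy,
    WeierstrassCurve.Affine.negY, c1, c2, c3, c4]
  have h2 : y - (-y - 1 * x - 1) = 2 * y + x + 1 := by ring
  rw [h2]
  field_simp
  ring

/-- the doubling formula -/
theorem At.dbl' {P : PtP (WM (4 * k + 1)) p} {X Y : ℚ_[p]} (h : At k P X Y) (hY : Y ≠ 0) :
    ∃ Y3, At k (P + P) ((X ^ 2 - 128 * (4 * k + 1) ^ 2) ^ 2 / (4 * Y ^ 2)) Y3 := by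
  obtain ⟨Y3, h3⟩ := h.dbl hY
  refine ⟨Y3, ?_⟩
  have e := h.eqn
  have e1 : (X ^ 2 - 128 * (4 * k + 1) ^ 2) ^ 2 / (4 * Y ^ 2) =
      ((3 * X ^ 2 + 26 * (4 * k + 1) * X + 128 * (4 * k + 1) ^ 2) / (2 * Y)) ^ 2 -
      13 * (4 * k + 1) - X - X := by
    field_simp
    rw [e]
    ring
  rw [e1]
  exact h3

theorem M_ne : (4 * (k : ℚ_[p]) + 1) ≠ 0 := by
  have h : (4 * k + 1 : ℤ) ≠ 0 := by omega
  exact_mod_cast h

/-- the point `(0, 0)` -/
theorem exists_T (p : ℕ) [Fact p.Prime] (k : ℤ) : ∃ T : PtP (WM (4 * k + 1)) p, At k T 0 0 := by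
  have hn : ((WM (4 * k + 1)).map (Int.castRingHom ℚ_[p])).toAffine.Nonsingular
      (4 * k + 1 : ℚ_[p]) (-(2 * k + 1)) := by
    rw [WeierstrassCurve.Affine.nonsingular_iff', WeierstrassCurve.Affine.equation_iff, c1, c2, c3,
      c4, c6]
    refine ⟨by ring, Or.inl ?_⟩
    have h1 := M_ne (p := p) (k := k)
    have h2 : (1 : ℚ_[p]) * -(2 * k + 1) - (3 * (4 * k + 1) ^ 2 + 2 * k * (4 * k + 1) +
        (72 * k ^ 2 + 36 * k + 4)) = -(8 * (4 * k + 1) ^ 2) := by ring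
    rw [h2]
    simp only [ne_eq, neg_eq_zero, mul_eq_zero, OfNat.ofNat_ne_zero, false_or]
    exact pow_ne_zero 2 h1
  refine ⟨Point.some _ _ hn, _, _, hn, rfl, ?_, ?_⟩ <;> ring

/-- translation by `(0, 0)` -/
theorem At.addT {P T : PtP (WM (4 * k + 1)) p} {X Y : ℚ_[p]} (h : At k P X Y) (hT : At k T 0 0)
    (hX : X ≠ 0) : ∃ Y3, At k (P + T) (128 * (4 * k + 1) ^ 2 / X) Y3 := by
  obtain ⟨Y3, h3⟩ := h.add hT hX
  refine ⟨Y3, ?_⟩
  have e := h.eqn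
  have e1 : 128 * (4 * k + 1) ^ 2 / X =
      ((Y - 0) / (X - 0)) ^ 2 - 13 * (4 * k + 1) - X - 0 := by
    rw [sub_zero, sub_zero, sub_zero, div_pow, e]
    field_simp
    ring
  rw [e1]
  exact h3

theorem T_add_T {T : PtP (WM (4 * k + 1)) p} (hT : At k T 0 0) : T + T = 0 := by
  have h1 : At k (-T) 0 0 := by simpa using hT.neg
  have h2 : T = -T := hT.ext h1
  calc T + T = T + -T := by rw [← h2]
    _ = 0 := add_neg_cancel T

theorem At.sing (hE : S_E0) {P : PtP (WM (4 * k + 1)) p} {x y : ℚ_[p]} {h : _}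
    (hP : P = Point.some x y h) : P ∈ E0 (WM (4 * k + 1)) p ↔ ¬ SingRed (WM (4 * k + 1)) p x y := by
  rw [hE]
  constructor
  · intro h1
    exact h1 x y h hP
  · intro h1 x' y' h' e
    rw [hP] at e
    injection e with e1 e2
    rw [← e1, ← e2]
    exact h1

/-- finite index from a finite cover -/
theorem finite_of_cover {G : Type} [AddCommGroup G] (H : AddSubgroup G) {ι : Type} [Finite ι]
    (A : ι → G → Prop) (hcov : ∀ g, ∃ i, A i g) (hA : ∀ i g g', A i g → A i g' → g - g' ∈ H) :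
    Finite (G ⧸ H) := by
  choose f hf using hcov
  refine Finite.of_injective (fun q : G ⧸ H => f q.out) fun q q' hq => ?_
  have h1 := hA (f q.out) q.out q'.out (hf _) (by
    have h2 : f q.out = f q'.out := hq
    rw [h2]; exact hf _)
  rw [← q.out_eq', ← q'.out_eq']
  rw [QuotientAddGroup.eq]
  have h3 := H.neg_mem h1
  have h4 : -q.out + q'.out = -(q.out - q'.out) := by abel
  rw [h4]
  exact h3

end Pool.Agent.Y641.BSD14
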